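import Mathlib

set_option autoImplicit false

namespace Pool.Agent.H.MP_b5c594_nt



/-- The real vector with the coordinates of the integer vector `m`. -/
def toR (m : Fin 2 → ℤ) : Fin 2 → ℝ := fun i => (m i : ℝ)

/-- The coefficients of `x²`, `xy`, `y²` in the Markov-Davenport form of the arrangement of the two
lines spanned by `u` and `v`. -/
noncomputable def mdForm (u v : Fin 2 → ℝ) : Fin 3 → ℝ :=
  (u 0 * v 1 - u 1 * v 0)⁻¹ • ![u 1 * v 1, -(u 0 * v 1 + u 1 * v 0), u 0 * v 0]

/-- The discrepancy of the arrangements spanned by `u, v` and by `u', v'`; the norm on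
`Fin 3 → ℝ` is the largest absolute value of a coordinate. -/
noncomputable def disc (u v u' v' : Fin 2 → ℝ) : ℝ :=
  min ‖mdForm u v + mdForm u' v'‖ ‖mdForm u v - mdForm u' v'‖

/-- `v, w` are primitive integer vectors on two distinct lines, of size at most `N`. -/
def IsIntArr (N : ℕ) (v w : Fin 2 → ℤ) : Prop :=
  IsCoprime (v 0) (v 1) ∧ IsCoprime (w 0) (w 1) ∧ v 0 * w 1 - v 1 * w 0 ≠ 0 ∧
    max ‖v‖ ‖w‖ ≤ N

/-- `v, w` are primitive integer vectors on the two lines of a best approximation of size at most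
`N` of the arrangement spanned by `a, b`. -/
def IsBestApprox (a b : Fin 2 → ℝ) (N : ℕ) (v w : Fin 2 → ℤ) : Prop :=
  IsIntArr N v w ∧ ∀ v' w' : Fin 2 → ℤ, IsIntArr N v' w' →
    disc a b (toR v) (toR w) ≤ disc a b (toR v') (toR w')

/-- The two distinct lines spanned by `a` and `b` are the eigenlines of some `A ∈ GL(2, ℤ)` whose
characteristic polynomial is irreducible over `ℚ` with two real roots. -/
def IsAlgebraicArr (a b : Fin 2 → ℝ) : Prop :=
  LinearIndependent ℝ ![a, b] ∧ ∃ A : Matrix.GeneralLinearGroup (Fin 2) ℤ,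
    Irreducible ((A : Matrix (Fin 2) (Fin 2) ℤ).charpoly.map (Int.castRingHom ℚ)) ∧
    ∃ r s : ℝ, r ≠ s ∧
      ((A : Matrix (Fin 2) (Fin 2) ℤ).map (Int.cast : ℤ → ℝ)).mulVec a = r • a ∧
      ((A : Matrix (Fin 2) (Fin 2) ℤ).map (Int.cast : ℤ → ℝ)).mulVec b = s • b

/-- The closed angle with vertex at the origin spanned by `a` and `b`. -/
def angle (a b : Fin 2 → ℝ) : Set (Fin 2 → ℝ) :=
  {z | ∃ s t : ℝ, 0 ≤ s ∧ 0 ≤ t ∧ z = s • a + t • b}

/-- The sail (1-sail) of `C`: the boundary of the convex hull of the nonzero integer points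
of `C`. -/
def sail (C : Set (Fin 2 → ℝ)) : Set (Fin 2 → ℝ) :=
  frontier (convexHull ℝ {z | z ∈ C ∧ z ≠ 0 ∧ ∃ m : Fin 2 → ℤ, z = toR m})

/-- The geometric continued fraction: the union of the sails of the four angles cut out by
the lines spanned by `a` and `b`. -/
def geomContFrac (a b : Fin 2 → ℝ) : Set (Fin 2 → ℝ) :=
  sail (angle a b) ∪ sail (angle a (-b)) ∪ sail (angle (-a) b) ∪ sail (angle (-a) (-b))

end Pool.Agent.H.MP_b5c594_nt
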