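import Pool.Agent.H.MP_b5c594_nt.Defs

set_option autoImplicit false

namespace Pool.Agent.H.MP_b5c594_nt

/-! ### The golden ratio and its conjugate -/

noncomputable def g : ℝ := (1 + √5) / 2
noncomputable def h : ℝ := (1 - √5) / 2

lemma sqrt5_lo : (2.236 : ℝ) < √5 := by
  rw [Real.lt_sqrt (by norm_num)]; norm_num
lemma sqrt5_hi : √5 < (2.237 : ℝ) := by
  rw [Real.sqrt_lt' (by norm_num)]; norm_num
lemma sqrt5_sq : √5 * √5 = 5 := Real.mul_self_sqrt (by norm_num)
lemma g_add_h : g + h = 1 := by unfold g h; ring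
lemma g_sub_h : g - h = √5 := by unfold g h; ring
lemma g_mul_h : g * h = -1 := by
  have := sqrt5_sq
  unfold g h; nlinarith
lemma g_lo : (1.618 : ℝ) < g := by have := sqrt5_lo; unfold g; linarith
lemma g_hi : g < (1.6185 : ℝ) := by have := sqrt5_hi; unfold g; linarith
lemma h_lo : (-0.6185 : ℝ) < h := by have := sqrt5_hi; unfold h; linarith
lemma h_hi : h < (-0.618 : ℝ) := by have := sqrt5_lo; unfold h; linarith
lemma g_sq : g * g = g + 1 := by have := g_add_h; have := g_mul_h; nlinarith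
lemma h_sq : h * h = h + 1 := by have := g_add_h; have := g_mul_h; nlinarith
lemma g_ne : g ≠ 0 := ne_of_gt (by have := g_lo; linarith)
lemma h_ne : h ≠ 0 := ne_of_lt (by have := h_hi; linarith)

/-- The two lines. -/
noncomputable def va : Fin 2 → ℝ := ![1, 1000 + g]
noncomputable def vb : Fin 2 → ℝ := ![1, 1000 + h]

/-- Linear forms vanishing on the two lines. -/
noncomputable def L1 (z : Fin 2 → ℝ) : ℝ := z 1 - (1000 + g) * z 0
noncomputable def L2 (z : Fin 2 → ℝ) : ℝ := z 1 - (1000 + h) * z 0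

/-- Integer vector with sheared coordinates. -/
def mk (x y : ℤ) : Fin 2 → ℤ := ![x, y + 1000 * x]

lemma L1_mk (x y : ℤ) : L1 (toR (mk x y)) = y - g * x := by
  simp [L1, toR, mk]; ring
lemma L2_mk (x y : ℤ) : L2 (toR (mk x y)) = y - h * x := by
  simp [L2, toR, mk]; ring

lemma exists_mk (v : Fin 2 → ℤ) : ∃ x y : ℤ, v = mk x y := by
  refine ⟨v 0, v 1 - 1000 * v 0, ?_⟩
  funext i
  fin_cases i <;> simp [mk]

/-- Multiplication by a unit. -/
lemma unit_mul (x y : ℤ) (k : ℤ) : ∃ x' y' : ℤ,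
    (y' : ℝ) - h * x' = g ^ k * (y - h * x) ∧ (y' : ℝ) - g * x' = h ^ k * (y - g * x) := by
  have e1 := g_add_h
  have e2 := g_mul_h
  induction k using Int.induction_on with
  | zero => exact ⟨x, y, by simp, by simp⟩
  | succ n ih =>
    obtain ⟨x', y', h1, h2⟩ := ih
    refine ⟨y', x' + y', ?_, ?_⟩
    · rw [zpow_add_one₀ g_ne, mul_assoc, mul_comm g, ← mul_assoc, ← h1]
      push_cast
      linear_combination (-(y' : ℝ)) * e1 + x' * e2
    · rw [zpow_add_one₀ h_ne, mul_assoc, mul_comm h, ← mul_assoc, ← h2]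
      push_cast
      linear_combination (-(y' : ℝ)) * e1 + x' * e2
  | pred n ih =>
    obtain ⟨x', y', h1, h2⟩ := ih
    refine ⟨y' - x', x', ?_, ?_⟩
    · rw [zpow_sub_one₀ g_ne, mul_assoc, mul_comm g⁻¹, ← mul_assoc, ← h1]
      rw [eq_mul_inv_iff_mul_eq₀ g_ne]
      push_cast
      linear_combination (x' : ℝ) * e1 - (y' - x' : ℝ) * e2
    · rw [zpow_sub_one₀ h_ne, mul_assoc, mul_comm h⁻¹, ← mul_assoc, ← h2]
      rw [eq_mul_inv_iff_mul_eq₀ h_ne]
      push_cast
      linear_combination (x' : ℝ) * e1 - (y' - x' : ℝ) * e2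


lemma g_pos : 0 < g := by have := g_lo; linarith
lemma one_lt_g : 1 < g := by have := g_lo; linarith

/-- Integer vectors of small norm are units. -/
lemma classify (x y : ℤ) (hxy : ¬ (x = 0 ∧ y = 0))
    (hf : |((y : ℝ) - h * x) * (y - g * x)| ≤ 2) :
    ∃ k : ℤ, ∃ s : ℝ, (s = 1 ∨ s = -1) ∧ (y : ℝ) - h * x = s * g ^ k ∧
      (y : ℝ) - g * x = s * h ^ k := by
  have e1 := g_add_h
  have e2 := g_mul_h
  have hg1 := g_lo
  have hg2 := g_hi
  have hh1 := h_lo
  have hh2 := h_hi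
  -- L2 is nonzero
  have hfint : ((y : ℝ) - h * x) * (y - g * x) = ((y * y - x * y - x * x : ℤ) : ℝ) := by
    push_cast
    linear_combination (-(x * y : ℝ)) * e1 + (x * x : ℝ) * e2
  have hne : (y * y - x * y - x * x : ℤ) ≠ 0 := by
    intro h0
    apply hxy
    -- (2y - x)^2 = 5 x^2
    have h5 : (2 * y - x) * (2 * y - x) = 5 * (x * x) := by linear_combination 4 * h0
    by_cases hx : x = 0
    · subst hx
      refine ⟨rfl, ?_⟩
      have : y * y = 0 := by linarith
      exact mul_self_eq_zero.1 this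
    · exfalso
      have hirr : Irrational (√5) := by
        have := Nat.Prime.irrational_sqrt (show Nat.Prime 5 by norm_num)
        exact_mod_cast this
      apply hirr
      have hx' : (x : ℝ) ≠ 0 := by exact_mod_cast hx
      refine ⟨|((2 * y - x : ℤ) : ℚ) / x|, ?_⟩
      have h1 : (((2 * y - x : ℤ) : ℝ) / x) ^ 2 = 5 := by
        have : ((2 * y - x : ℤ) : ℝ) * ((2 * y - x : ℤ) : ℝ) = 5 * (x * x) := by
          exact_mod_cast h5
        field_simp
        nlinarith
      push_cast at h1 ⊢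
      rw [← Real.sqrt_sq_eq_abs, h1]
  have hprod : ((y : ℝ) - h * x) * (y - g * x) ≠ 0 := by
    rw [hfint]; exact_mod_cast hne
  have hL2 : (y : ℝ) - h * x ≠ 0 := left_ne_zero_of_mul hprod
  obtain ⟨k, hk1, hk2⟩ := exists_mem_Ico_zpow (abs_pos.2 hL2) one_lt_g
  obtain ⟨x', y', h1, h2⟩ := unit_mul x y (-k)
  have gk : 0 < g ^ k := zpow_pos g_pos k
  have habs2 : |(y' : ℝ) - h * x'| = |(y : ℝ) - h * x| / g ^ k := by
    rw [h1, abs_mul, zpow_neg, abs_inv, abs_of_pos gk]; ring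
  have hl : 1 ≤ |(y' : ℝ) - h * x'| := by
    rw [habs2, le_div_iff₀ gk, one_mul]; exact hk1
  have hu : |(y' : ℝ) - h * x'| < g := by
    rw [habs2, div_lt_iff₀ gk, mul_comm g, ← zpow_add_one₀ g_ne]; exact hk2
  have hprod' : |((y' : ℝ) - h * x') * (y' - g * x')| ≤ 2 := by
    have : ((y' : ℝ) - h * x') * (y' - g * x') =
        (g * h) ^ (-k) * (((y : ℝ) - h * x) * (y - g * x)) := by
      rw [h1, h2, mul_zpow]; ring
    rw [this, abs_mul, e2, abs_zpow, abs_neg, abs_one, one_zpow, one_mul]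
    exact hf
  have hL1 : |(y' : ℝ) - g * x'| ≤ 2 := by
    rw [abs_mul] at hprod'
    nlinarith [abs_nonneg ((y' : ℝ) - g * x')]
  -- bounds on x', y'
  obtain ⟨hu1, hu2⟩ := abs_lt.1 hu
  obtain ⟨hL1a, hL1b⟩ := abs_le.1 hL1
  have hx1 : (x' : ℝ) < 2 := by
    have : (g - h) * x' = ((y' : ℝ) - h * x') - (y' - g * x') := by ring
    nlinarith
  have hx2 : (-2 : ℝ) < x' := by
    have : (g - h) * x' = ((y' : ℝ) - h * x') - (y' - g * x') := by ring
    nlinarith
  have hy1 : (y' : ℝ) < 2 := by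
    have : (g - h) * y' = g * ((y' : ℝ) - h * x') - h * (y' - g * x') := by ring
    nlinarith
  have hy2 : (-2 : ℝ) < y' := by
    have : (g - h) * y' = g * ((y' : ℝ) - h * x') - h * (y' - g * x') := by ring
    nlinarith
  have hx1' : x' < 2 := by exact_mod_cast hx1
  have hx2' : -2 < x' := by exact_mod_cast hx2
  have hy1' : y' < 2 := by exact_mod_cast hy1
  have hy2' : -2 < y' := by exact_mod_cast hy2
  have key : x' = 0 ∧ (y' = 1 ∨ y' = -1) := by
    have hx3 : x' = -1 ∨ x' = 0 ∨ x' = 1 := by omega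
    have hy3 : y' = -1 ∨ y' = 0 ∨ y' = 1 := by omega
    rcases hx3 with rfl | rfl | rfl <;> rcases hy3 with rfl | rfl | rfl <;>
      simp only [Int.cast_neg, Int.cast_one, Int.cast_zero] at hl hu <;>
      first
      | exact ⟨rfl, Or.inl rfl⟩
      | exact ⟨rfl, Or.inr rfl⟩
      | (exfalso
         rcases le_abs.1 hl with h3 | h3 <;> obtain ⟨h4, h5⟩ := abs_lt.1 hu <;> linarith)
  obtain ⟨hx0, hy0⟩ := key
  have gk' : g ^ k * g ^ (-k) = 1 := by rw [← zpow_add₀ g_ne]; simp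
  have hk' : h ^ k * h ^ (-k) = 1 := by rw [← zpow_add₀ h_ne]; simp
  refine ⟨k, (y' : ℝ), ?_, ?_, ?_⟩
  · rcases hy0 with rfl | rfl <;> simp
  · subst hx0
    rw [Int.cast_zero, mul_zero, sub_zero] at h1
    rw [h1]
    linear_combination (-((y : ℝ) - h * x)) * gk'
  · subst hx0
    rw [Int.cast_zero, mul_zero, sub_zero] at h2
    rw [h2]
    linear_combination (-((y : ℝ) - g * x)) * hk'


/-! ### Sails -/

/-- The closed cones in terms of the two linear forms. -/
def Cone (s t : ℝ) : Set (Fin 2 → ℝ) := {z | 0 ≤ s * L2 z ∧ 0 ≤ t * L1 z}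

lemma g_sub_h_pos : 0 < g - h := by have := g_lo; have := h_hi; linarith

lemma L1_add (u v : Fin 2 → ℝ) : L1 (u + v) = L1 u + L1 v := by simp [L1]; ring
lemma L2_add (u v : Fin 2 → ℝ) : L2 (u + v) = L2 u + L2 v := by simp [L2]; ring
lemma L1_smul (c : ℝ) (u : Fin 2 → ℝ) : L1 (c • u) = c * L1 u := by simp [L1]; ring
lemma L2_smul (c : ℝ) (u : Fin 2 → ℝ) : L2 (c • u) = c * L2 u := by simp [L2]; ring
lemma L1_va : L1 va = 0 := by simp [L1, va]
lemma L2_va : L2 va = g - h := by simp [L2, va]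
lemma L1_vb : L1 vb = h - g := by simp [L1, vb]
lemma L2_vb : L2 vb = 0 := by simp [L2, vb]

lemma angle_eq (s t : ℝ) (hs : s = 1 ∨ s = -1) (ht : t = 1 ∨ t = -1) :
    angle (s • va) (t • vb) = Cone s (-t) := by
  have hd := g_sub_h_pos
  have hd' := hd.ne'
  have hs2 : s * s = 1 := by rcases hs with rfl | rfl <;> norm_num
  have ht2 : t * t = 1 := by rcases ht with rfl | rfl <;> norm_num
  ext z
  constructor
  · rintro ⟨p, q, hp, hq, rfl⟩
    refine ⟨?_, ?_⟩
    · simp only [L2_add, L2_smul, L2_va, L2_vb]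
      have : s * (p * (s * (g - h)) + q * (t * 0)) = (s * s) * (p * (g - h)) := by ring
      rw [this, hs2, one_mul]
      positivity
    · simp only [L1_add, L1_smul, L1_va, L1_vb]
      have : -t * (p * (s * 0) + q * (t * (h - g))) = (t * t) * (q * (g - h)) := by ring
      rw [this, ht2, one_mul]
      positivity
  · rintro ⟨h1, h2⟩
    refine ⟨s * L2 z / (g - h), -t * L1 z / (g - h), div_nonneg h1 hd.le,
      div_nonneg h2 hd.le, ?_⟩
    funext i
    fin_cases i
    · simp only [Pi.add_apply, Pi.smul_apply, smul_eq_mul, va, vb, L1, L2]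
      simp
      field_simp
      linear_combination (-(z 1 - z 0 * (1000 + h))) * hs2 + (z 1 - z 0 * (1000 + g)) * ht2
    · simp only [Pi.add_apply, Pi.smul_apply, smul_eq_mul, va, vb, L1, L2]
      simp
      field_simp
      linear_combination (-(z 1 - z 0 * (1000 + h)) * (1000 + g)) * hs2 +
        ((z 1 - z 0 * (1000 + g)) * (1000 + h)) * ht2


lemma abs_h_zpow (k : ℤ) : |h ^ k| = g ^ (-k) := by
  have h1 : |h| = g⁻¹ := by
    rw [abs_of_neg (by have := h_hi; linarith)]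
    have h2 : g * (-h) = 1 := by linarith [g_mul_h]
    exact eq_inv_of_mul_eq_one_right h2
  rw [abs_zpow, h1, inv_zpow, zpow_neg]

lemma exists_unit (s t ξ η : ℝ) (hs : s = 1 ∨ s = -1) (ht : t = 1 ∨ t = -1)
    (hξ : 0 < s * ξ) (hη : 0 < t * η) (hp : 3 ≤ |ξ * η|) :
    ∃ x y : ℤ, 0 < s * ((y : ℝ) - h * x) ∧ s * ((y : ℝ) - h * x) < s * ξ ∧
      0 < t * ((y : ℝ) - g * x) ∧ t * ((y : ℝ) - g * x) < t * η := by
  have hg1 := g_lo
  have hg2 := g_hi
  have e2 := g_mul_h
  obtain ⟨k, hk1, hk2⟩ := exists_mem_Ioc_zpow hξ one_lt_g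
  have hs2 : s * s = 1 := by rcases hs with rfl | rfl <;> norm_num
  have ht2 : t * t = 1 := by rcases ht with rfl | rfl <;> norm_num
  have hprod : 3 ≤ (s * ξ) * (t * η) := by
    have h1 : |ξ * η| = |(s * ξ) * (t * η)| := by
      rcases hs with rfl | rfl <;> rcases ht with rfl | rfl <;> simp
    rw [h1, abs_of_pos (mul_pos hξ hη)] at hp
    exact hp
  -- candidates
  have main : ∀ κ : ℤ, g ^ κ < s * ξ → g ^ (-κ) < t * η → 0 < s * t * h ^ κ →
      ∃ x y : ℤ, 0 < s * ((y : ℝ) - h * x) ∧ s * ((y : ℝ) - h * x) < s * ξ ∧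
      0 < t * ((y : ℝ) - g * x) ∧ t * ((y : ℝ) - g * x) < t * η := by
    intro κ h1 h2 h3
    have gk : 0 < g ^ κ := zpow_pos g_pos κ
    have h4 : t * (s * h ^ κ) < t * η := by
      have : t * (s * h ^ κ) ≤ |h ^ κ| := by
        have h5 := le_abs_self (t * (s * h ^ κ))
        have h6 : |t * (s * h ^ κ)| = |h ^ κ| := by
          rcases hs with rfl | rfl <;> rcases ht with rfl | rfl <;> simp
        rwa [h6] at h5
      rw [abs_h_zpow] at this
      linarith
    obtain ⟨x', y', h5, h6⟩ := unit_mul 0 1 κ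
    simp only [Int.cast_one, Int.cast_zero, mul_zero, sub_zero, mul_one] at h5 h6
    rcases hs with rfl | rfl
    · refine ⟨x', y', ?_, ?_, ?_, ?_⟩
      · rw [h5]; simpa using gk
      · rw [h5]; simpa using h1
      · rw [h6]; linarith
      · rw [h6]; linarith
    · refine ⟨-x', -y', ?_, ?_, ?_, ?_⟩
      · push_cast
        have : (-1 : ℝ) * (-(y' : ℝ) - h * -(x' : ℝ)) = y' - h * x' := by ring
        rw [this, h5]; exact gk
      · push_cast
        have : (-1 : ℝ) * (-(y' : ℝ) - h * -(x' : ℝ)) = y' - h * x' := by ring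
        rw [this, h5]; exact h1
      · push_cast
        have : t * (-(y' : ℝ) - g * -(x' : ℝ)) = -t * (y' - g * x') := by ring
        rw [this, h6]; linarith
      · push_cast
        have : t * (-(y' : ℝ) - g * -(x' : ℝ)) = -t * (y' - g * x') := by ring
        rw [this, h6]; linarith
  have hbound : g ^ (-(k - 1)) < t * η := by
    have h1 : g ^ (-(k - 1)) * g ^ (k + 1) = g * g := by
      rw [← zpow_add₀ g_ne]
      have : -(k - 1) + (k + 1) = 2 := by ring
      rw [this]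
      norm_cast
      ring
    have h2 : g * g < 3 := by nlinarith
    have gk : 0 < g ^ (-(k - 1)) := zpow_pos g_pos _
    have h3 : g ^ (-(k - 1)) * (s * ξ) ≤ g * g := by
      rw [← h1]
      exact mul_le_mul_of_nonneg_left hk2 gk.le
    by_contra hcon
    push Not at hcon
    have h4 : (s * ξ) * (t * η) ≤ (s * ξ) * g ^ (-(k - 1)) :=
      mul_le_mul_of_nonneg_left hcon hξ.le
    nlinarith
  have hk0 : h ^ k ≠ 0 := zpow_ne_zero _ h_ne
  have hst : s * t ≠ 0 := by
    rcases hs with rfl | rfl <;> rcases ht with rfl | rfl <;> norm_num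
  rcases lt_or_gt_of_ne (mul_ne_zero hst hk0) with hneg | hpos
  · -- use k - 1
    apply main (k - 1)
    · refine lt_of_le_of_lt ?_ hk1
      exact zpow_le_zpow_right₀ one_lt_g.le (by omega)
    · exact hbound
    · rw [zpow_sub_one₀ h_ne]
      have : s * t * (h ^ k * h⁻¹) = (s * t * h ^ k) * h⁻¹ := by ring
      rw [this]
      exact mul_pos_of_neg_of_neg hneg (inv_lt_zero.2 (by have := h_hi; linarith))
  · apply main k hk1 _ hpos
    refine lt_of_le_of_lt ?_ hbound
    exact zpow_le_zpow_right₀ one_lt_g.le (by omega)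


/-- The nonzero integer points of the cone. -/
def S (s t : ℝ) : Set (Fin 2 → ℝ) := {z | z ∈ Cone s t ∧ z ≠ 0 ∧ ∃ m : Fin 2 → ℤ, z = toR m}

lemma continuous_L1 : Continuous L1 := by unfold L1; fun_prop
lemma continuous_L2 : Continuous L2 := by unfold L2; fun_prop

lemma isClosed_Cone (s t : ℝ) : IsClosed (Cone s t) := by
  have h1 : IsClosed {z : Fin 2 → ℝ | 0 ≤ s * L2 z} :=
    isClosed_le continuous_const (continuous_const.mul continuous_L2)
  have h2 : IsClosed {z : Fin 2 → ℝ | 0 ≤ t * L1 z} :=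
    isClosed_le continuous_const (continuous_const.mul continuous_L1)
  exact h1.inter h2

lemma convex_Cone (s t : ℝ) : Convex ℝ (Cone s t) := by
  intro u hu v hv a b ha hb hab
  refine ⟨?_, ?_⟩
  · rw [L2_add, L2_smul, L2_smul]
    have h1 := mul_nonneg ha hu.1
    have h2 := mul_nonneg hb hv.1
    linarith
  · rw [L1_add, L1_smul, L1_smul]
    have h1 := mul_nonneg ha hu.2
    have h2 := mul_nonneg hb hv.2
    linarith

lemma closure_hull_subset (s t : ℝ) : closure (convexHull ℝ (S s t)) ⊆ Cone s t :=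
  closure_minimal (convexHull_min (fun _ hz => hz.1) (convex_Cone s t)) (isClosed_Cone s t)

lemma L1_toR (v : Fin 2 → ℤ) : L1 (toR v) = (v 1 : ℝ) - (1000 + g) * v 0 := rfl
lemma L2_toR (v : Fin 2 → ℤ) : L2 (toR v) = (v 1 : ℝ) - (1000 + h) * v 0 := rfl

/-- A point `e + u` with `e`, `u` integer points in the open cone is interior to the hull. -/
lemma interior_of_decomp (s t : ℝ) (hs : s = 1 ∨ s = -1) (ht : t = 1 ∨ t = -1)
    (e u : Fin 2 → ℤ) (he2 : 0 < s * L2 (toR e)) (he1 : 0 < t * L1 (toR e))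
    (hu2 : 0 < s * L2 (toR u)) (hu1 : 0 < t * L1 (toR u)) :
    toR (e + u) ∈ interior (convexHull ℝ (S s t)) := by
  have hg1 := g_lo
  have hg2 := g_hi
  have hh1 := h_lo
  have hh2 := h_hi
  set K := convexHull ℝ (S s t) with hK
  have hKc : Convex ℝ K := convex_convexHull ℝ _
  -- membership criterion for integer vectors
  have memS : ∀ m : Fin 2 → ℤ, 0 < s * L2 (toR m) → 0 ≤ t * L1 (toR m) → toR m ∈ K := by
    intro m h2 h1
    apply subset_convexHull
    refine ⟨⟨h2.le, h1⟩, ?_, m, rfl⟩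
    intro h0
    rw [h0] at h2
    simp [L2] at h2
  -- choose a large multiple
  obtain ⟨M, hM⟩ := exists_nat_gt (max (1002 / (s * L2 (toR u))) (1002 / (t * L1 (toR u))))
  have hM2 : 1002 < M * (s * L2 (toR u)) := by
    have := lt_of_le_of_lt (le_max_left _ _) hM
    rwa [div_lt_iff₀ hu2] at this
  have hM1 : 1002 < M * (t * L1 (toR u)) := by
    have := lt_of_le_of_lt (le_max_right _ _) hM
    rwa [div_lt_iff₀ hu1] at this
  have hM0 : (0 : ℝ) < M := by
    by_contra hcon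
    push Not at hcon
    nlinarith
  -- the point y = e + M u
  set y : Fin 2 → ℝ := toR e + (M : ℝ) • toR u with hy
  have mem_pt : ∀ a b : ℤ, |(a : ℝ)| + |(b : ℝ)| ≤ 1 → y + ![(a : ℝ), (b : ℝ)] ∈ K := by
    intro a b hab
    have : y + ![(a : ℝ), (b : ℝ)] = toR (fun i => e i + M * u i + ![a, b] i) := by
      funext i
      fin_cases i <;> simp [hy, toR]
    rw [this]
    have hlin : ∀ c : ℝ, |1000 + c| ≤ 1002 → |(b : ℝ) - (1000 + c) * a| ≤ 1002 := by
      intro c hc
      have h1 : |(b : ℝ) - (1000 + c) * a| ≤ |(b : ℝ)| + |1000 + c| * |(a : ℝ)| := by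
        rw [← abs_mul]; exact abs_sub _ _
      have h2 : |1000 + c| * |(a : ℝ)| ≤ 1002 * |(a : ℝ)| :=
        mul_le_mul_of_nonneg_right hc (abs_nonneg _)
      have h3 := abs_nonneg (a : ℝ)
      have h4 := abs_nonneg (b : ℝ)
      nlinarith
    have hA2 := hlin h (by rw [abs_le]; constructor <;> linarith)
    have hA1 := hlin g (by rw [abs_le]; constructor <;> linarith)
    have e2' : L2 (toR (fun i => e i + M * u i + ![a, b] i)) =
        L2 (toR e) + M * L2 (toR u) + ((b : ℝ) - (1000 + h) * a) := by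
      simp [L2, toR]; ring
    have e1' : L1 (toR (fun i => e i + M * u i + ![a, b] i)) =
        L1 (toR e) + M * L1 (toR u) + ((b : ℝ) - (1000 + g) * a) := by
      simp [L1, toR]; ring
    have bnd : ∀ (r X : ℝ), (r = 1 ∨ r = -1) → |X| ≤ 1002 → -1002 ≤ r * X := by
      intro r X hr hX
      obtain ⟨h1, h2⟩ := abs_le.1 hX
      rcases hr with rfl | rfl <;> linarith
    have b2 := bnd s _ hs hA2
    have b1 := bnd t _ ht hA1
    apply memS
    · rw [e2']
      have : s * (L2 (toR e) + M * L2 (toR u) + ((b : ℝ) - (1000 + h) * a)) =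
        s * L2 (toR e) + M * (s * L2 (toR u)) + s * ((b : ℝ) - (1000 + h) * a) := by ring
      rw [this]; linarith
    · rw [e1']
      have : t * (L1 (toR e) + M * L1 (toR u) + ((b : ℝ) - (1000 + g) * a)) =
        t * L1 (toR e) + M * (t * L1 (toR u)) + t * ((b : ℝ) - (1000 + g) * a) := by ring
      rw [this]; linarith
  have q1 := mem_pt 1 0 (by norm_num)
  have q2 := mem_pt (-1) 0 (by norm_num)
  have q3 := mem_pt 0 1 (by norm_num)
  have q4 := mem_pt 0 (-1) (by norm_num)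
  have hyint : y ∈ interior K := by
    rw [mem_interior_iff_mem_nhds, Metric.mem_nhds_iff]
    refine ⟨1 / 2, by norm_num, ?_⟩
    intro z hz
    rw [Metric.mem_ball, dist_pi_lt_iff (by norm_num)] at hz
    have z0 := hz 0
    have z1 := hz 1
    rw [Real.dist_eq, abs_lt] at z0 z1
    have m1 : y + ![2 * (z 0 - y 0), 0] ∈ K := by
      have := hKc q1 q2 (a := (1 + 2 * (z 0 - y 0)) / 2) (b := (1 - 2 * (z 0 - y 0)) / 2)
        (by linarith) (by linarith) (by ring)
      convert this using 1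
      funext i
      fin_cases i <;> simp [-Matrix.add_cons] <;> ring
    have m2 : y + ![0, 2 * (z 1 - y 1)] ∈ K := by
      have := hKc q3 q4 (a := (1 + 2 * (z 1 - y 1)) / 2) (b := (1 - 2 * (z 1 - y 1)) / 2)
        (by linarith) (by linarith) (by ring)
      convert this using 1
      funext i
      fin_cases i <;> simp [-Matrix.add_cons] <;> ring
    have := hKc m1 m2 (a := 1 / 2) (b := 1 / 2) (by norm_num) (by norm_num) (by norm_num)
    convert this using 1
    funext i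
    fin_cases i <;> simp [-Matrix.add_cons] <;> ring
  have hxK : toR e ∈ K := memS e he2 he1.le
  have hM1' : (1 : ℝ) ≤ M := by exact_mod_cast Nat.one_le_iff_ne_zero.2 (by
    rintro rfl; simp at hM0)
  have := hKc.combo_self_interior_mem_interior hxK hyint (a := 1 - 1 / (M : ℝ))
    (b := 1 / (M : ℝ)) (by
      have : 1 / (M : ℝ) ≤ 1 := by rw [div_le_one hM0]; exact hM1'
      linarith) (by positivity) (by ring)
  convert this using 1
  funext i
  simp only [toR, hy, Pi.add_apply, Pi.smul_apply, smul_eq_mul]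
  push_cast
  field_simp
  ring


lemma norm_int (x y : ℤ) : ((y : ℝ) - h * x) * (y - g * x) = ((y * y - x * y - x * x : ℤ) : ℝ) := by
  have e1 := g_add_h
  have e2 := g_mul_h
  push_cast
  linear_combination (-(x * y : ℝ)) * e1 + (x * x : ℝ) * e2

/-- Integer points on one of the sails have norm at most 2 in absolute value. -/
lemma norm_of_sail (s t : ℝ) (hs : s = 1 ∨ s = -1) (ht : t = 1 ∨ t = -1) (x y : ℤ)
    (hv : toR (mk x y) ∈ frontier (convexHull ℝ (S s t))) :
    |((y : ℝ) - h * x) * (y - g * x)| ≤ 2 := by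
  by_contra hcon
  push Not at hcon
  have h3 : 3 ≤ |((y : ℝ) - h * x) * (y - g * x)| := by
    rw [norm_int] at hcon ⊢
    rw [← Int.cast_abs] at hcon ⊢
    have : (2 : ℤ) < |y * y - x * y - x * x| := by exact_mod_cast hcon
    exact_mod_cast this
  have hcone := closure_hull_subset s t (frontier_subset_closure hv)
  obtain ⟨c2, c1⟩ := hcone
  rw [L2_mk] at c2
  rw [L1_mk] at c1
  have hne : ((y : ℝ) - h * x) * (y - g * x) ≠ 0 := by
    intro h0
    rw [h0] at h3
    norm_num at h3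
  have hs0 : s ≠ 0 := by rcases hs with rfl | rfl <;> norm_num
  have ht0 : t ≠ 0 := by rcases ht with rfl | rfl <;> norm_num
  have d2 : 0 < s * ((y : ℝ) - h * x) :=
    lt_of_le_of_ne c2 (Ne.symm (mul_ne_zero hs0 (left_ne_zero_of_mul hne)))
  have d1 : 0 < t * ((y : ℝ) - g * x) :=
    lt_of_le_of_ne c1 (Ne.symm (mul_ne_zero ht0 (right_ne_zero_of_mul hne)))
  obtain ⟨x', y', a1, a2, a3, a4⟩ := exists_unit s t _ _ hs ht d2 d1 h3
  have hdec : mk x y = mk x' y' + mk (x - x') (y - y') := by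
    funext i
    fin_cases i <;> simp [mk] <;> ring
  have hint := interior_of_decomp s t hs ht (mk x' y') (mk (x - x') (y - y'))
    (by rw [L2_mk]; exact a1) (by rw [L1_mk]; exact a3)
    (by rw [L2_mk]; push_cast; linarith) (by rw [L1_mk]; push_cast; linarith)
  rw [← hdec] at hint
  exact hv.2 hint

lemma sail_eq (s t : ℝ) (hs : s = 1 ∨ s = -1) (ht : t = 1 ∨ t = -1) :
    sail (angle (s • va) (t • vb)) = frontier (convexHull ℝ (S s (-t))) := by
  unfold sail S
  rw [angle_eq s t hs ht]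

lemma norm_of_geomContFrac (x y : ℤ) (hv : toR (mk x y) ∈ geomContFrac va vb) :
    |((y : ℝ) - h * x) * (y - g * x)| ≤ 2 := by
  have o : (1 : ℝ) = 1 ∨ (1 : ℝ) = -1 := Or.inl rfl
  have m : (-1 : ℝ) = 1 ∨ (-1 : ℝ) = -1 := Or.inr rfl
  have m' : (-1 : ℝ) = 1 ∨ (-1 : ℝ) = -1 := Or.inr rfl
  have mm : (- -1 : ℝ) = 1 ∨ (- -1 : ℝ) = -1 := Or.inl (by norm_num)
  have e1 := sail_eq 1 1 o o
  have e2 := sail_eq 1 (-1) o m
  have e3 := sail_eq (-1) 1 m o
  have e4 := sail_eq (-1) (-1) m m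
  rw [one_smul, one_smul] at e1
  rw [one_smul, neg_one_smul] at e2
  rw [one_smul, neg_one_smul] at e3
  rw [neg_one_smul, neg_one_smul] at e4
  unfold geomContFrac at hv
  rw [e1, e2, e3, e4] at hv
  rcases hv with ((hv | hv) | hv) | hv
  · exact norm_of_sail _ _ o m x y hv
  · exact norm_of_sail _ _ o mm x y hv
  · exact norm_of_sail _ _ m m x y hv
  · exact norm_of_sail _ _ m mm x y hv


/-! ### Discrepancy -/

lemma mdForm_swap (u v : Fin 2 → ℝ) : mdForm v u = - mdForm u v := by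
  unfold mdForm
  have h1 : v 0 * u 1 - v 1 * u 0 = -(u 0 * v 1 - u 1 * v 0) := by ring
  rw [h1, inv_neg, neg_smul]
  congr 2
  funext i
  fin_cases i <;> simp <;> ring

lemma disc_eq (a b u v : Fin 2 → ℝ) :
    disc a b u v = min ‖mdForm a b - mdForm v u‖ ‖mdForm a b - mdForm u v‖ := by
  unfold disc
  rw [mdForm_swap u v, sub_neg_eq_add]

lemma md_va_vb : mdForm va vb =
    ![-((1000 + g) * (1000 + h)) / (g - h), (2000 + g + h) / (g - h), -1 / (g - h)] := by
  have hd := g_sub_h_pos.ne'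
  funext i
  fin_cases i
  · simp [mdForm, va, vb]
    rw [show (h - g : ℝ) = -(g - h) by ring]
    field_simp
  · simp [mdForm, va, vb]
    rw [show (h - g : ℝ) = -(g - h) by ring]
    field_simp
    ring
  · simp [mdForm, va, vb]
    rw [show (h - g : ℝ) = -(g - h) by ring]
    field_simp

lemma diffs (u v : Fin 2 → ℝ) (hD : u 0 * v 1 - u 1 * v 0 ≠ 0) :
    (g - h) * (mdForm va vb - mdForm u v) 0 * (L2 u * L1 v - L1 u * L2 v) =
      -((1000 + g) ^ 2 * (L2 u * L2 v) + (1000 + h) ^ 2 * (L1 u * L1 v) -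
        2 * (1000 + g) * (1000 + h) * (L1 u * L2 v)) ∧
    (g - h) * (mdForm va vb - mdForm u v) 1 * (L2 u * L1 v - L1 u * L2 v) =
      2 * (1000 + g) * (L2 u * L2 v) + 2 * (1000 + h) * (L1 u * L1 v) -
        2 * (2000 + g + h) * (L1 u * L2 v) ∧
    (g - h) * (mdForm va vb - mdForm u v) 2 * (L2 u * L1 v - L1 u * L2 v) =
      -((L2 u * L2 v) + (L1 u * L1 v) - 2 * (L1 u * L2 v)) := by
  have hd := g_sub_h_pos.ne'
  have hW : L2 u * L1 v - L1 u * L2 v = (g - h) * (u 0 * v 1 - u 1 * v 0) := by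
    unfold L1 L2; ring
  rw [md_va_vb, hW]
  unfold mdForm
  obtain ⟨Δ, hΔ⟩ : ∃ Δ, Δ = u 0 * v 1 - u 1 * v 0 := ⟨_, rfl⟩
  rw [← hΔ] at hD ⊢
  have e0 : (![-((1000 + g) * (1000 + h)) / (g - h), (2000 + g + h) / (g - h), -1 / (g - h)] -
      Δ⁻¹ • ![u 1 * v 1, -(u 0 * v 1 + u 1 * v 0), u 0 * v 0]) 0 =
      -((1000 + g) * (1000 + h)) / (g - h) - u 1 * v 1 / Δ := by
    simp; ring
  have e1 : (![-((1000 + g) * (1000 + h)) / (g - h), (2000 + g + h) / (g - h), -1 / (g - h)] -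
      Δ⁻¹ • ![u 1 * v 1, -(u 0 * v 1 + u 1 * v 0), u 0 * v 0]) 1 =
      (2000 + g + h) / (g - h) + (u 0 * v 1 + u 1 * v 0) / Δ := by
    simp; ring
  have e2 : (![-((1000 + g) * (1000 + h)) / (g - h), (2000 + g + h) / (g - h), -1 / (g - h)] -
      Δ⁻¹ • ![u 1 * v 1, -(u 0 * v 1 + u 1 * v 0), u 0 * v 0]) 2 =
      -1 / (g - h) - u 0 * v 0 / Δ := by
    simp; ring
  rw [e0, e1, e2]
  refine ⟨?_, ?_, ?_⟩
  · have : (g - h) * (-((1000 + g) * (1000 + h)) / (g - h) - u 1 * v 1 / Δ) * ((g - h) * Δ) =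
      -((1000 + g) * (1000 + h)) * (g - h) * Δ - (g - h) * (g - h) * (u 1 * v 1) := by
      field_simp
    rw [this, hΔ]
    unfold L1 L2
    ring
  · have : (g - h) * ((2000 + g + h) / (g - h) + (u 0 * v 1 + u 1 * v 0) / Δ) * ((g - h) * Δ) =
      (2000 + g + h) * (g - h) * Δ + (g - h) * (g - h) * (u 0 * v 1 + u 1 * v 0) := by
      field_simp
    rw [this, hΔ]
    unfold L1 L2
    ring
  · have : (g - h) * (-1 / (g - h) - u 0 * v 0 / Δ) * ((g - h) * Δ) =
      -1 * (g - h) * Δ - (g - h) * (g - h) * (u 0 * v 0) := by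
      field_simp
    rw [this, hΔ]
    unfold L1 L2
    ring


/-- Linear algebra part of the lower bound: small differences force small `p`, `q`. -/
lemma small_pq (p q D0 D1 D2 δ : ℝ) (hpq : 1 - p * q ≠ 0) (hδ : 0 ≤ δ) (hδ2 : δ ≤ 1 / 10 ^ 9)
    (h0 : D0 * (1 - p * q) = -((1000 + g) ^ 2 * q + (1000 + h) ^ 2 * p -
        2 * (1000 + g) * (1000 + h) * (p * q)))
    (h1 : D1 * (1 - p * q) = 2 * (1000 + g) * q + 2 * (1000 + h) * p -
        2 * (2000 + g + h) * (p * q))
    (h2 : D2 * (1 - p * q) = -(q + p - 2 * (p * q)))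
    (b0 : |D0| ≤ δ) (b1 : |D1| ≤ δ) (b2 : |D2| ≤ δ) :
    |p| ≤ 1 / 1000 ∧ |q| ≤ 1 / 1000 := by
  have hg1 := g_lo
  have hg2 := g_hi
  have hh1 := h_lo
  have hh2 := h_hi
  have e3 : (g - h) ^ 2 = 5 := by rw [g_sub_h, sq, sqrt5_sq]
  set W := |1 - p * q| with hW
  have hWpos : 0 < W := abs_pos.2 hpq
  -- bound on p
  have bp : |p| ≤ 210000 * δ * W := by
    have e : -5 * p = (D0 + (1000 + g) * D1 + (1000 + g) ^ 2 * D2) * (1 - p * q) := by
      linear_combination (-1 : ℝ) * h0 - (1000 + g) * h1 - (1000 + g) ^ 2 * h2 + p * e3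
    have e' : 5 * |p| = |D0 + (1000 + g) * D1 + (1000 + g) ^ 2 * D2| * W := by
      rw [hW, ← abs_mul, ← e, abs_mul]; norm_num
    have t1 : |D0 + (1000 + g) * D1 + (1000 + g) ^ 2 * D2| ≤
        |D0| + (1000 + g) * |D1| + (1000 + g) ^ 2 * |D2| := by
      refine (abs_add_three _ _ _).trans ?_
      rw [abs_mul, abs_mul, abs_of_pos (by linarith : (0 : ℝ) < 1000 + g),
        abs_of_pos (by positivity : (0 : ℝ) < (1000 + g) ^ 2)]
    have t2 : |D0| + (1000 + g) * |D1| + (1000 + g) ^ 2 * |D2| ≤ 1050000 * δ := by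
      have a1 : (1000 + g) * |D1| ≤ 1002 * δ := by
        apply mul_le_mul (by linarith) b1 (abs_nonneg _) (by norm_num)
      have a2 : (1000 + g) ^ 2 * |D2| ≤ 1004004 * δ := by
        apply mul_le_mul (by nlinarith) b2 (abs_nonneg _) (by norm_num)
      linarith
    have t3 := mul_le_mul_of_nonneg_right (t1.trans t2) hWpos.le
    linarith
  have bq : |q| ≤ 210000 * δ * W := by
    have e : -5 * q = (D0 + (1000 + h) * D1 + (1000 + h) ^ 2 * D2) * (1 - p * q) := by
      linear_combination (-1 : ℝ) * h0 - (1000 + h) * h1 - (1000 + h) ^ 2 * h2 + q * e3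
    have e' : 5 * |q| = |D0 + (1000 + h) * D1 + (1000 + h) ^ 2 * D2| * W := by
      rw [hW, ← abs_mul, ← e, abs_mul]; norm_num
    have t1 : |D0 + (1000 + h) * D1 + (1000 + h) ^ 2 * D2| ≤
        |D0| + (1000 + h) * |D1| + (1000 + h) ^ 2 * |D2| := by
      refine (abs_add_three _ _ _).trans ?_
      rw [abs_mul, abs_mul, abs_of_pos (by linarith : (0 : ℝ) < 1000 + h),
        abs_of_pos (by nlinarith : (0 : ℝ) < (1000 + h) ^ 2)]
    have t2 : |D0| + (1000 + h) * |D1| + (1000 + h) ^ 2 * |D2| ≤ 1050000 * δ := by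
      have a1 : (1000 + h) * |D1| ≤ 1002 * δ := by
        apply mul_le_mul (by linarith) b1 (abs_nonneg _) (by norm_num)
      have a2 : (1000 + h) ^ 2 * |D2| ≤ 1004004 * δ := by
        apply mul_le_mul (by nlinarith) b2 (abs_nonneg _) (by norm_num)
      linarith
    have t3 := mul_le_mul_of_nonneg_right (t1.trans t2) hWpos.le
    linarith
  have bpq : |p * q| ≤ 220000 * δ * W := by
    have e : 2 * (p * q) = D2 * (1 - p * q) + q + p := by linear_combination (-1 : ℝ) * h2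
    have e' : 2 * |p * q| ≤ |D2| * W + |q| + |p| := by
      have : 2 * |p * q| = |2 * (p * q)| := by rw [abs_mul]; norm_num
      rw [this, e, hW, ← abs_mul]
      exact abs_add_three _ _ _
    have t1 := mul_le_mul_of_nonneg_right b2 hWpos.le
    nlinarith
  have hW1 : W ≤ 1 + |p * q| := by
    rw [hW]
    have := abs_sub (1 : ℝ) (p * q)
    rwa [abs_one] at this
  have hW2 : W ≤ 2 := by nlinarith
  constructor
  · nlinarith
  · nlinarith


lemma tau_abs : |h / g| ≤ 0.3825 := by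
  have hg1 := g_lo
  have hh1 := h_lo
  have hh2 := h_hi
  rw [abs_div, abs_of_neg (by linarith : h < 0), abs_of_pos g_pos, div_le_iff₀ g_pos]
  nlinarith

lemma tau_ne : h / g ≠ 0 := div_ne_zero h_ne g_ne

lemma ratio_cases (k j : ℤ) :
    (h / g) ^ k = (h / g) ^ j ∨ |(h / g) ^ k| ≤ 0.3825 * |(h / g) ^ j| ∨
      |(h / g) ^ j| ≤ 0.3825 * |(h / g) ^ k| := by
  have aux : ∀ k j : ℤ, j < k → |(h / g) ^ k| ≤ 0.3825 * |(h / g) ^ j| := by
    intro k j hjk
    have e : (h / g) ^ k = (h / g) ^ (k - j - 1) * (h / g) * (h / g) ^ j := by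
      rw [← zpow_add_one₀ tau_ne, ← zpow_add₀ tau_ne]
      congr 1; ring
    rw [e, abs_mul, abs_mul]
    have h1 : |(h / g) ^ (k - j - 1)| ≤ 1 := by
      obtain ⟨n, hn⟩ : ∃ n : ℕ, k - j - 1 = n := ⟨(k - j - 1).toNat, by omega⟩
      rw [hn, zpow_natCast, abs_pow]
      exact pow_le_one₀ (abs_nonneg _) (tau_abs.trans (by norm_num))
    have h2 : |(h / g) ^ (k - j - 1)| * |h / g| ≤ 1 * 0.3825 :=
      mul_le_mul h1 tau_abs (abs_nonneg _) (by norm_num)
    rw [one_mul] at h2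
    exact mul_le_mul_of_nonneg_right h2 (abs_nonneg _)
  rcases lt_trichotomy k j with hlt | heq | hgt
  · exact Or.inr (Or.inr (aux j k hlt))
  · exact Or.inl (by rw [heq])
  · exact Or.inr (Or.inl (aux k j hgt))

lemma lower_D0 (p q D0 : ℝ) (hpq : 1 - p * q ≠ 0)
    (hp : |p| ≤ 1 / 1000) (hq : |q| ≤ 1 / 1000)
    (hc : p = q ∨ |p| ≤ 0.3825 * |q| ∨ |q| ≤ 0.3825 * |p|)
    (h0 : D0 * (1 - p * q) = -((1000 + g) ^ 2 * q + (1000 + h) ^ 2 * p -
        2 * (1000 + g) * (1000 + h) * (p * q))) :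
    590000 * |p| ≤ |D0| := by
  have hg1 := g_lo
  have hg2 := g_hi
  have hh1 := h_lo
  have hh2 := h_hi
  have hp0 := abs_nonneg p
  have hq0 := abs_nonneg q
  have hg3 : (1003236 : ℝ) ≤ (1000 + g) ^ 2 := by nlinarith
  have hg4 : (1000 + g) ^ 2 ≤ (1003240 : ℝ) := by nlinarith
  have hh3 : (998763 : ℝ) ≤ (1000 + h) ^ 2 := by nlinarith
  have hh4 : (1000 + h) ^ 2 ≤ (998765 : ℝ) := by nlinarith
  have hgh : 2 * (1000 + g) * (1000 + h) ≤ (2003000 : ℝ) := by nlinarith
  have hgh0 : 0 ≤ 2 * (1000 + g) * (1000 + h) := by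
    have : 0 ≤ 1000 + h := by linarith
    positivity
  have key : 595000 * |p| ≤ |(1000 + g) ^ 2 * q + (1000 + h) ^ 2 * p -
        2 * (1000 + g) * (1000 + h) * (p * q)| := by
    rcases hc with rfl | hc | hc
    · have e : (1000 + g) ^ 2 * p + (1000 + h) ^ 2 * p - 2 * (1000 + g) * (1000 + h) * (p * p) =
        ((1000 + g) ^ 2 + (1000 + h) ^ 2 - 2 * (1000 + g) * (1000 + h) * p) * p := by ring
      rw [e, abs_mul]
      apply mul_le_mul_of_nonneg_right _ hp0
      have h1 : 2 * (1000 + g) * (1000 + h) * p ≤ 2003000 * (1 / 1000) := by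
        have : 2 * (1000 + g) * (1000 + h) * p ≤ 2 * (1000 + g) * (1000 + h) * |p| :=
          mul_le_mul_of_nonneg_left (le_abs_self p) hgh0
        have h2 : 2 * (1000 + g) * (1000 + h) * |p| ≤ 2003000 * (1 / 1000) :=
          mul_le_mul hgh hp hp0 (by norm_num)
        linarith
      refine le_trans ?_ (le_abs_self _)
      linarith
    · have t1 : |(1000 + g) ^ 2 * q| ≤ |(1000 + g) ^ 2 * q + (1000 + h) ^ 2 * p -
        2 * (1000 + g) * (1000 + h) * (p * q)| + |(1000 + h) ^ 2 * p| +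
        |2 * (1000 + g) * (1000 + h) * (p * q)| := by
        have e : (1000 + g) ^ 2 * q = ((1000 + g) ^ 2 * q + (1000 + h) ^ 2 * p -
          2 * (1000 + g) * (1000 + h) * (p * q)) + (-((1000 + h) ^ 2 * p)) +
          (2 * (1000 + g) * (1000 + h) * (p * q)) := by ring
        have := abs_add_three ((1000 + g) ^ 2 * q + (1000 + h) ^ 2 * p -
          2 * (1000 + g) * (1000 + h) * (p * q)) (-((1000 + h) ^ 2 * p))
          (2 * (1000 + g) * (1000 + h) * (p * q))
        rw [← e, abs_neg] at this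
        exact this
      rw [abs_mul ((1000 + g) ^ 2) q, abs_mul ((1000 + h) ^ 2) p, abs_mul (2 * (1000 + g) * (1000 + h)),
        abs_mul p q, abs_of_nonneg hgh0, abs_of_nonneg (by positivity : 0 ≤ (1000 + g) ^ 2),
        abs_of_nonneg (by positivity : 0 ≤ (1000 + h) ^ 2)] at t1
      have t2 : 2 * (1000 + g) * (1000 + h) * (|p| * |q|) ≤ 2003 * |q| := by
        have : 2 * (1000 + g) * (1000 + h) * |p| ≤ 2003000 * (1 / 1000) :=
          mul_le_mul hgh hp hp0 (by norm_num)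
        nlinarith
      have t3 : (1000 + h) ^ 2 * |p| ≤ 998765 * (0.3825 * |q|) :=
        mul_le_mul hh4 hc hp0 (by norm_num)
      have t4 : 1003236 * |q| ≤ (1000 + g) ^ 2 * |q| := mul_le_mul_of_nonneg_right hg3 hq0
      have t5 : |p| ≤ |q| := by linarith
      linarith
    · have t1 : |(1000 + h) ^ 2 * p| ≤ |(1000 + g) ^ 2 * q + (1000 + h) ^ 2 * p -
        2 * (1000 + g) * (1000 + h) * (p * q)| + |(1000 + g) ^ 2 * q| +
        |2 * (1000 + g) * (1000 + h) * (p * q)| := by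
        have e : (1000 + h) ^ 2 * p = ((1000 + g) ^ 2 * q + (1000 + h) ^ 2 * p -
          2 * (1000 + g) * (1000 + h) * (p * q)) + (-((1000 + g) ^ 2 * q)) +
          (2 * (1000 + g) * (1000 + h) * (p * q)) := by ring
        have := abs_add_three ((1000 + g) ^ 2 * q + (1000 + h) ^ 2 * p -
          2 * (1000 + g) * (1000 + h) * (p * q)) (-((1000 + g) ^ 2 * q))
          (2 * (1000 + g) * (1000 + h) * (p * q))
        rw [← e, abs_neg] at this
        exact this
      rw [abs_mul ((1000 + g) ^ 2) q, abs_mul ((1000 + h) ^ 2) p, abs_mul (2 * (1000 + g) * (1000 + h)),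
        abs_mul p q, abs_of_nonneg hgh0, abs_of_nonneg (by positivity : 0 ≤ (1000 + g) ^ 2),
        abs_of_nonneg (by positivity : 0 ≤ (1000 + h) ^ 2)] at t1
      have t2 : 2 * (1000 + g) * (1000 + h) * (|p| * |q|) ≤ 2003 * |p| := by
        have : 2 * (1000 + g) * (1000 + h) * |q| ≤ 2003000 * (1 / 1000) :=
          mul_le_mul hgh hq hq0 (by norm_num)
        nlinarith
      have t3 : (1000 + g) ^ 2 * |q| ≤ 1003240 * (0.3825 * |p|) :=
        mul_le_mul hg4 hc hq0 (by norm_num)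
      have t4 : 998763 * |p| ≤ (1000 + h) ^ 2 * |p| := mul_le_mul_of_nonneg_right hh3 hp0
      linarith
  rw [← abs_neg ((1000 + g) ^ 2 * q + (1000 + h) ^ 2 * p -
    2 * (1000 + g) * (1000 + h) * (p * q)), ← h0, abs_mul] at key
  have hW1 : |1 - p * q| ≤ 1 + 1 / 1000 := by
    have h1 := abs_sub (1 : ℝ) (p * q)
    rw [abs_one, abs_mul] at h1
    nlinarith
  nlinarith [abs_nonneg D0]


lemma diffs' (u v : Fin 2 → ℝ) (hD : u 0 * v 1 - u 1 * v 0 ≠ 0) (p q : ℝ)
    (hB : L2 u ≠ 0) (hA : L1 v ≠ 0) (hp : L1 u = p * L2 u) (hq : L2 v = q * L1 v) :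
    1 - p * q ≠ 0 ∧
    ((g - h) * (mdForm va vb - mdForm u v) 0) * (1 - p * q) =
      -((1000 + g) ^ 2 * q + (1000 + h) ^ 2 * p - 2 * (1000 + g) * (1000 + h) * (p * q)) ∧
    ((g - h) * (mdForm va vb - mdForm u v) 1) * (1 - p * q) =
      2 * (1000 + g) * q + 2 * (1000 + h) * p - 2 * (2000 + g + h) * (p * q) ∧
    ((g - h) * (mdForm va vb - mdForm u v) 2) * (1 - p * q) = -(q + p - 2 * (p * q)) := by
  obtain ⟨h0, h1, h2⟩ := diffs u v hD
  have hW : L2 u * L1 v - L1 u * L2 v = (g - h) * (u 0 * v 1 - u 1 * v 0) := by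
    unfold L1 L2; ring
  have hne : L2 u * L1 v ≠ 0 := mul_ne_zero hB hA
  have e1 : L2 u * L1 v - L1 u * L2 v = (L2 u * L1 v) * (1 - p * q) := by rw [hp, hq]; ring
  refine ⟨?_, ?_, ?_, ?_⟩
  · intro h0
    rw [e1, h0, mul_zero] at hW
    exact mul_ne_zero g_sub_h_pos.ne' hD hW.symm
  · apply mul_left_cancel₀ hne
    rw [e1] at h0
    rw [hp, hq] at h0
    linear_combination h0
  · apply mul_left_cancel₀ hne
    rw [e1] at h1
    rw [hp, hq] at h1
    linear_combination h1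
  · apply mul_left_cancel₀ hne
    rw [e1] at h2
    rw [hp, hq] at h2
    linear_combination h2

lemma toR_det (v w : Fin 2 → ℤ) (hD : v 0 * w 1 - v 1 * w 0 ≠ 0) :
    toR v 0 * toR w 1 - toR v 1 * toR w 0 ≠ 0 := by
  unfold toR
  exact_mod_cast hD

/-- Lower bound for the discrepancy of a pair of unit vectors. -/
lemma lower_pair (N : ℕ) (hN : 10 ^ 12 ≤ N) (v w : Fin 2 → ℤ)
    (hD : v 0 * w 1 - v 1 * w 0 ≠ 0) (hv : ‖v‖ ≤ N) (k m : ℤ) (s s' : ℝ)
    (hs : s = 1 ∨ s = -1) (hs' : s' = 1 ∨ s' = -1)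
    (hv2 : L2 (toR v) = s * g ^ k) (hv1 : L1 (toR v) = s * h ^ k)
    (hw2 : L2 (toR w) = s' * g ^ m) (hw1 : L1 (toR w) = s' * h ^ m) :
    10 ^ 11 / (N : ℝ) ^ 2 < (g - h) * ‖mdForm va vb - mdForm (toR v) (toR w)‖ := by
  have hg1 := g_lo
  have hg2 := g_hi
  have hh1 := h_lo
  have hh2 := h_hi
  have hNr : (10 : ℝ) ^ 12 ≤ N := by exact_mod_cast hN
  have hNpos : (0 : ℝ) < N := by linarith [pow_pos (by norm_num : (0 : ℝ) < 10) 12]
  have hs0 : s ≠ 0 := by rcases hs with rfl | rfl <;> norm_num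
  have hs0' : s' ≠ 0 := by rcases hs' with rfl | rfl <;> norm_num
  have hs2 : s * s = 1 := by rcases hs with rfl | rfl <;> norm_num
  have gk : g ^ k ≠ 0 := zpow_ne_zero _ g_ne
  have hk : h ^ k ≠ 0 := zpow_ne_zero _ h_ne
  have gm : g ^ m ≠ 0 := zpow_ne_zero _ g_ne
  have hm : h ^ m ≠ 0 := zpow_ne_zero _ h_ne
  set δ : ℝ := 10 ^ 11 / (N : ℝ) ^ 2 with hδ
  have hδ0 : 0 < δ := by positivity
  have hδ1 : δ ≤ 1 / 10 ^ 9 := by
    rw [hδ, div_le_div_iff₀ (by positivity) (by positivity)]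
    have : (10 ^ 12 : ℝ) ^ 2 ≤ (N : ℝ) ^ 2 := pow_le_pow_left₀ (by positivity) hNr 2
    linarith
  have hp : L1 (toR v) = (h / g) ^ k * L2 (toR v) := by
    rw [hv1, hv2, div_zpow]; field_simp
  have hq : L2 (toR w) = (h / g) ^ (-m) * L1 (toR w) := by
    rw [hw1, hw2, zpow_neg, div_zpow]; field_simp
  obtain ⟨hpq, d0, d1, d2⟩ := diffs' (toR v) (toR w) (toR_det v w hD) ((h / g) ^ k)
    ((h / g) ^ (-m)) (by rw [hv2]; exact mul_ne_zero hs0 gk) (by rw [hw1]; exact mul_ne_zero hs0' hm)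
    hp hq
  by_contra hcon
  push Not at hcon
  have comp : ∀ i, |(g - h) * (mdForm va vb - mdForm (toR v) (toR w)) i| ≤ δ := by
    intro i
    rw [abs_mul, abs_of_pos g_sub_h_pos]
    refine le_trans ?_ hcon
    apply mul_le_mul_of_nonneg_left _ g_sub_h_pos.le
    have := norm_le_pi_norm (mdForm va vb - mdForm (toR v) (toR w)) i
    rwa [Real.norm_eq_abs] at this
  obtain ⟨bp, bq⟩ := small_pq _ _ _ _ _ δ hpq hδ0.le hδ1 d0 d1 d2 (comp 0) (comp 1) (comp 2)
  have hlow := lower_D0 _ _ _ hpq bp bq (ratio_cases k (-m)) d0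
  -- lower bound on |p|
  set p := (h / g) ^ k with hpdef
  set B := L2 (toR v) with hBdef
  set A := L1 (toR v) with hAdef
  have hAB : |A * B| = 1 := by
    rw [hv1, hv2]
    have : s * h ^ k * (s * g ^ k) = (s * s) * (g * h) ^ k := by rw [mul_zpow]; ring
    rw [this, hs2, g_mul_h, one_mul, abs_zpow, abs_neg, abs_one, one_zpow]
  have hpB : |p| * (B * B) = 1 := by
    rw [← hAB, hp, abs_mul, abs_mul, ← abs_mul_abs_self B]; ring
  have hA2 : A * A ≤ 1 := by
    have e : A * A = |p| * |A * B| := by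
      have h5 : |A| = |p| * |B| := by rw [hp, abs_mul]
      rw [← abs_mul_abs_self A, abs_mul, h5]
      ring
    rw [e, hAB]
    linarith
  have hA1 : |A| ≤ 1 := by
    rw [← abs_one]
    exact sq_le_sq.1 (by rw [sq, sq]; linarith)
  have hv1N : |(v 1 : ℝ)| ≤ N := by
    have := norm_le_pi_norm v 1
    rw [Int.norm_eq_abs] at this
    linarith
  have hrel : (1000 + g) * B = (g - h) * (v 1 : ℝ) + (1000 + h) * A := by
    rw [hAdef, hBdef, L1_toR, L2_toR]; ring
  have hB1 : (1000 + g) * |B| ≤ 2.237 * N + 1000 := by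
    have e : (1000 + g) * |B| = |(g - h) * (v 1 : ℝ) + (1000 + h) * A| := by
      rw [← hrel, abs_mul, abs_of_pos (by linarith : (0 : ℝ) < 1000 + g)]
    rw [e]
    refine (abs_add_le _ _).trans ?_
    rw [abs_mul, abs_mul, abs_of_pos g_sub_h_pos, abs_of_pos (by linarith : (0 : ℝ) < 1000 + h)]
    have t1 : (g - h) * |(v 1 : ℝ)| ≤ 2.237 * N :=
      mul_le_mul (by linarith) hv1N (abs_nonneg _) (by norm_num)
    have t2 : (1000 + h) * |A| ≤ 1000 * 1 :=
      mul_le_mul (by linarith) hA1 (abs_nonneg _) (by norm_num)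
    linarith
  have hB2 : |B| ≤ 0.002235 * N := by
    have : (1001.618 : ℝ) * |B| ≤ 2.237 * N + 1000 :=
      le_trans (mul_le_mul_of_nonneg_right (by linarith) (abs_nonneg _)) hB1
    linarith
  have hB3 : B * B ≤ 0.000005 * (N : ℝ) ^ 2 := by
    rw [← abs_mul_abs_self B]
    have h5 := mul_self_le_mul_self (abs_nonneg B) hB2
    have h6 : 0.002235 * (N : ℝ) * (0.002235 * N) ≤ 0.000005 * (N : ℝ) ^ 2 := by
      have h7 : 0 ≤ (N : ℝ) ^ 2 := by positivity
      linarith
    exact h5.trans h6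
  have hplow : 200000 ≤ |p| * (N : ℝ) ^ 2 := by
    have : |p| * (B * B) ≤ |p| * (0.000005 * (N : ℝ) ^ 2) :=
      mul_le_mul_of_nonneg_left hB3 (abs_nonneg _)
    rw [hpB] at this
    linarith
  have hfin := hlow.trans (comp 0)
  rw [hδ, le_div_iff₀ (by positivity)] at hfin
  linarith


lemma coprime_of_norm (x y : ℤ) (hxy : (y * y - x * y - x * x = 5 ∨ y * y - x * y - x * x = -5) ∨
    (y * y - x * y - x * x = 1 ∨ y * y - x * y - x * x = -1)) :
    IsCoprime (mk x y 0) (mk x y 1) := by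
  have h0 : mk x y 0 = x := rfl
  have h1 : mk x y 1 = y + 1000 * x := rfl
  rw [h0, h1]
  have : IsCoprime x y := by
    rw [Int.isCoprime_iff_gcd_eq_one]
    obtain ⟨a, ha⟩ := Int.gcd_dvd_left x y
    obtain ⟨b, hb⟩ := Int.gcd_dvd_right x y
    set d : ℤ := (Int.gcd x y : ℤ) with hd
    have hd0 : 0 ≤ d := by rw [hd]; positivity
    have hdvd : d * d ∣ y * y - x * y - x * x := by
      refine ⟨b * b - a * b - a * a, ?_⟩
      rw [ha, hb]; ring
    have h5 : d * d ∣ 5 := by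
      rcases hxy with (h | h) | (h | h) <;> rw [h] at hdvd
      · exact hdvd
      · exact (dvd_neg.1 hdvd)
      · exact hdvd.trans (by norm_num)
      · exact (dvd_neg.1 hdvd).trans (by norm_num)
    have hle : d * d ≤ 5 := Int.le_of_dvd (by norm_num) h5
    have hd3 : d < 3 := by nlinarith
    have hd1 : d = 1 := by
      interval_cases hdd : d
      · norm_num at h5
      · rfl
      · norm_num at h5
    have hd2 : ((Int.gcd x y : ℕ) : ℤ) = 1 := hd1
    exact_mod_cast hd2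
  have h3 := this.add_mul_left_right 1000
  rwa [mul_comm x 1000] at h3


lemma norm_le_of (x y : ℤ) (N : ℝ) (hN : 0 ≤ N) (h1 : |(x : ℝ)| ≤ N)
    (h2 : |(y + 1000 * x : ℝ)| ≤ N) : ‖mk x y‖ ≤ N := by
  rw [pi_norm_le_iff_of_nonneg hN]
  intro i
  rw [Int.norm_eq_abs]
  fin_cases i
  · simpa [mk] using h1
  · simpa [mk] using h2

set_option maxHeartbeats 1000000 in
/-- The competitor pair. -/
lemma upper_pair (N : ℕ) (hN : 10 ^ 12 ≤ N) : ∃ v w : Fin 2 → ℤ, IsIntArr N v w ∧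
    (g - h) * ‖mdForm va vb - mdForm (toR v) (toR w)‖ ≤ 10 ^ 11 / (N : ℝ) ^ 2 := by
  have hg1 := g_lo
  have hg2 := g_hi
  have hh1 := h_lo
  have hh2 := h_hi
  have e1 := g_add_h
  have hgh := g_mul_h
  have hd := g_sub_h_pos
  have hNr : (10 : ℝ) ^ 12 ≤ N := by exact_mod_cast hN
  have hNr' : (1000000000000 : ℝ) ≤ N := by linarith
  set X : ℝ := (N - 1000) / 1002 with hX
  have hX1 : (N : ℝ) / 1003 ≤ X := by
    rw [hX, div_le_div_iff₀ (by norm_num) (by norm_num)]; linarith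
  have hX2 : 1002 * X = N - 1000 := by rw [hX]; ring
  have hXpos : 0 < X := by linarith
  have hX3 : 1 ≤ X := by linarith
  obtain ⟨k, hk1, hk2⟩ := exists_mem_Ico_zpow hXpos one_lt_g
  have hk0 : 0 ≤ k := by
    by_contra hcon
    push Not at hcon
    have : g ^ (k + 1) ≤ 1 := by
      have := zpow_le_zpow_right₀ one_lt_g.le (show k + 1 ≤ 0 by omega)
      rwa [zpow_zero] at this
    linarith
  have gkpos : 0 < g ^ k := zpow_pos g_pos k
  have gk1 : 1 ≤ g ^ k := one_le_zpow₀ one_lt_g.le hk0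
  have gkne := gkpos.ne'
  have hkne : h ^ k ≠ 0 := zpow_ne_zero _ h_ne
  have hprodk : |h ^ k| * g ^ k = 1 := by
    rw [abs_h_zpow, zpow_neg]; field_simp
  have hk_le : |h ^ k| ≤ 1 := by nlinarith [abs_nonneg (h ^ k)]
  obtain ⟨a, b, v2, v1⟩ := unit_mul 2 1 k
  obtain ⟨c, d, w2, w1⟩ := unit_mul 0 1 (-k)
  push_cast at v2 v1 w2 w1
  have v2' : (b : ℝ) - h * a = g ^ k * (g - h) := by rw [v2]; linear_combination g ^ k * (-1 : ℝ) * e1
  have v1' : (b : ℝ) - g * a = -(h ^ k * (g - h)) := by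
    rw [v1]; linear_combination h ^ k * (-1 : ℝ) * e1
  have w2' : (d : ℝ) - h * c = (g ^ k)⁻¹ := by rw [w2, zpow_neg]; ring
  have w1' : (d : ℝ) - g * c = (h ^ k)⁻¹ := by rw [w1, zpow_neg]; ring
  -- coordinates
  have ha : (a : ℝ) = g ^ k + h ^ k := by
    apply mul_left_cancel₀ hd.ne'
    linear_combination v2' - v1'
  have hb : (b + 1000 * a : ℝ) = (1000 + g) * g ^ k + (1000 + h) * h ^ k := by
    apply mul_left_cancel₀ hd.ne'
    linear_combination (1000 + g) * v2' - (1000 + h) * v1'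
  have hinv : |(h ^ k)⁻¹| = g ^ k := by
    rw [abs_inv]
    exact (eq_inv_of_mul_eq_one_right hprodk).symm
  have hginv : |(g ^ k)⁻¹| ≤ 1 := by
    rw [abs_inv, abs_of_pos gkpos]
    exact inv_le_one_of_one_le₀ gk1
  have hgX : 1002 * g ^ k ≤ N - 1000 := by linarith
  have hc : (g - h) * (c : ℝ) = (g ^ k)⁻¹ - (h ^ k)⁻¹ := by
    linear_combination w2' - w1'
  have hdd : (g - h) * (d + 1000 * c : ℝ) = (1000 + g) * (g ^ k)⁻¹ - (1000 + h) * (h ^ k)⁻¹ := by
    linear_combination (1000 + g) * w2' - (1000 + h) * w1'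
  have sz1 : |(a : ℝ)| ≤ N := by
    rw [ha]
    refine (abs_add_le _ _).trans ?_
    rw [abs_of_pos gkpos]
    linarith
  have sz2 : |(b + 1000 * a : ℝ)| ≤ N := by
    rw [hb]
    refine (abs_add_le _ _).trans ?_
    rw [abs_mul, abs_mul, abs_of_pos gkpos, abs_of_pos (by linarith : (0 : ℝ) < 1000 + g),
      abs_of_pos (by linarith : (0 : ℝ) < 1000 + h)]
    have t1 : (1000 + g) * g ^ k ≤ 1002 * g ^ k := mul_le_mul_of_nonneg_right (by linarith) gkpos.le
    have t2 : (1000 + h) * |h ^ k| ≤ 1000 * 1 :=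
      mul_le_mul (by linarith) hk_le (abs_nonneg _) (by norm_num)
    linarith
  have hgh1 : 1 ≤ g - h := by linarith
  have sz3 : |(c : ℝ)| ≤ N := by
    have t1 : (g - h) * |(c : ℝ)| ≤ 1 + g ^ k := by
      have : (g - h) * |(c : ℝ)| = |(g ^ k)⁻¹ - (h ^ k)⁻¹| := by
        rw [← hc, abs_mul, abs_of_pos hd]
      rw [this]
      refine (abs_sub _ _).trans ?_
      rw [hinv]
      linarith
    have t2 : 1 * |(c : ℝ)| ≤ (g - h) * |(c : ℝ)| :=
      mul_le_mul_of_nonneg_right hgh1 (abs_nonneg _)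
    linarith
  have sz4 : |(d + 1000 * c : ℝ)| ≤ N := by
    have t1 : (g - h) * |(d + 1000 * c : ℝ)| ≤ 1002 + 1000 * g ^ k := by
      have : (g - h) * |(d + 1000 * c : ℝ)| =
          |(1000 + g) * (g ^ k)⁻¹ - (1000 + h) * (h ^ k)⁻¹| := by
        rw [← hdd, abs_mul, abs_of_pos hd]
      rw [this]
      refine (abs_sub _ _).trans ?_
      rw [abs_mul, abs_mul, hinv, abs_of_pos (by linarith : (0 : ℝ) < 1000 + g),
        abs_of_pos (by linarith : (0 : ℝ) < 1000 + h)]
      have t3 : (1000 + g) * |(g ^ k)⁻¹| ≤ 1002 * 1 :=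
        mul_le_mul (by linarith) hginv (abs_nonneg _) (by norm_num)
      have t4 : (1000 + h) * g ^ k ≤ 1000 * g ^ k :=
        mul_le_mul_of_nonneg_right (by linarith) gkpos.le
      linarith
    have t2 : 2 * |(d + 1000 * c : ℝ)| ≤ (g - h) * |(d + 1000 * c : ℝ)| :=
      mul_le_mul_of_nonneg_right (by linarith) (abs_nonneg _)
    linarith
  -- norms
  have nv : b * b - a * b - a * a = 5 ∨ b * b - a * b - a * a = -5 := by
    have t1 : |((b : ℝ) - h * a) * (b - g * a)| = 5 := by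
      rw [v2', v1']
      have : g ^ k * (g - h) * -(h ^ k * (g - h)) = -((g * h) ^ k * (g - h) ^ 2) := by
        rw [mul_zpow]; ring
      rw [this, hgh, g_sub_h, sq, sqrt5_sq, abs_neg, abs_mul, abs_zpow, abs_neg, abs_one, one_zpow]
      norm_num
    rw [norm_int, ← Int.cast_abs] at t1
    have t2 : |b * b - a * b - a * a| = 5 := by exact_mod_cast t1
    rcases abs_eq (by norm_num : (0 : ℤ) ≤ 5) |>.1 t2 with h | h
    · exact Or.inl h
    · exact Or.inr h
  have nw : d * d - c * d - c * c = 1 ∨ d * d - c * d - c * c = -1 := by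
    have t1 : |((d : ℝ) - h * c) * (d - g * c)| = 1 := by
      rw [w2', w1', ← mul_inv, ← mul_zpow, hgh, abs_inv, abs_zpow, abs_neg, abs_one, one_zpow,
        inv_one]
    rw [norm_int, ← Int.cast_abs] at t1
    have t2 : |d * d - c * d - c * c| = 1 := by exact_mod_cast t1
    rcases abs_eq (by norm_num : (0 : ℤ) ≤ 1) |>.1 t2 with h | h
    · exact Or.inl h
    · exact Or.inr h
  -- ratios
  have hσ : |(h / g) ^ k| * (g ^ k * g ^ k) = 1 := by
    rw [div_zpow, abs_div, abs_of_pos gkpos]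
    field_simp
    linarith
  set σ : ℝ := (h / g) ^ k with hσdef
  have Lv2 : L2 (toR (mk a b)) = g ^ k * (g - h) := by rw [L2_mk, v2']
  have Lv1 : L1 (toR (mk a b)) = -(h ^ k * (g - h)) := by rw [L1_mk, v1']
  have Lw2 : L2 (toR (mk c d)) = (g ^ k)⁻¹ := by rw [L2_mk, w2']
  have Lw1 : L1 (toR (mk c d)) = (h ^ k)⁻¹ := by rw [L1_mk, w1']
  have hdet : L2 (toR (mk a b)) * L1 (toR (mk c d)) - L1 (toR (mk a b)) * L2 (toR (mk c d)) ≠ 0 := by
    rw [Lv2, Lv1, Lw2, Lw1]
    have e : g ^ k * (g - h) * (h ^ k)⁻¹ - -(h ^ k * (g - h)) * (g ^ k)⁻¹ =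
        (g - h) * ((g ^ k) ^ 2 + (h ^ k) ^ 2) * (g ^ k * h ^ k)⁻¹ := by
      field_simp
      ring
    rw [e]
    have : 0 < (g ^ k) ^ 2 + (h ^ k) ^ 2 := by positivity
    exact mul_ne_zero (mul_ne_zero hd.ne' this.ne') (inv_ne_zero (mul_ne_zero gkne hkne))
  have hdetR : toR (mk a b) 0 * toR (mk c d) 1 - toR (mk a b) 1 * toR (mk c d) 0 ≠ 0 := by
    intro h0
    apply hdet
    have hW : L2 (toR (mk a b)) * L1 (toR (mk c d)) - L1 (toR (mk a b)) * L2 (toR (mk c d)) =
        (g - h) * (toR (mk a b) 0 * toR (mk c d) 1 - toR (mk a b) 1 * toR (mk c d) 0) := by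
      unfold L1 L2; ring
    rw [hW, h0, mul_zero]
  have hdetZ : mk a b 0 * mk c d 1 - mk a b 1 * mk c d 0 ≠ 0 := by
    intro h0
    apply hdetR
    unfold toR
    exact_mod_cast h0
  refine ⟨mk a b, mk c d, ⟨coprime_of_norm a b (Or.inl nv), coprime_of_norm c d (Or.inr nw),
    hdetZ, max_le (norm_le_of a b N (by positivity) sz1 sz2)
      (norm_le_of c d N (by positivity) sz3 sz4)⟩, ?_⟩
  obtain ⟨-, d0, d1, d2⟩ := diffs' (toR (mk a b)) (toR (mk c d)) hdetR (-σ) σ
    (by rw [Lv2]; positivity) (by rw [Lw1]; exact inv_ne_zero hkne)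
    (by rw [Lv1, Lv2, hσdef, div_zpow]; field_simp)
    (by rw [Lw1, Lw2, hσdef, div_zpow]; field_simp)
  -- smallness of σ
  have hσX : |σ| * X ^ 2 ≤ 2.62 := by
    have t1 : X ≤ g ^ k * g := by rw [← zpow_add_one₀ g_ne]; exact hk2.le
    have t2 : X ^ 2 ≤ (g ^ k * g) ^ 2 := pow_le_pow_left₀ hXpos.le t1 2
    have t3 : |σ| * X ^ 2 ≤ |σ| * (g ^ k * g) ^ 2 := mul_le_mul_of_nonneg_left t2 (abs_nonneg _)
    have t4 : |σ| * (g ^ k * g) ^ 2 = g * g := by
      have : |σ| * (g ^ k * g) ^ 2 = (|σ| * (g ^ k * g ^ k)) * (g * g) := by ring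
      rw [this, hσ, one_mul]
    rw [t4] at t3
    have t5 : g * g ≤ 2.62 := by nlinarith
    linarith
  have hσN : |σ| * (N : ℝ) ^ 2 ≤ 2640000 := by
    have t1 : (N : ℝ) ≤ 1003 * X := by
      rw [div_le_iff₀ (by norm_num)] at hX1; linarith
    have t2 : (N : ℝ) ^ 2 ≤ (1003 * X) ^ 2 := pow_le_pow_left₀ (by positivity) t1 2
    have t3 : |σ| * (N : ℝ) ^ 2 ≤ |σ| * (1003 * X) ^ 2 :=
      mul_le_mul_of_nonneg_left t2 (abs_nonneg _)
    have t4 : |σ| * (1003 * X) ^ 2 = 1006009 * (|σ| * X ^ 2) := by ring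
    rw [t4] at t3
    linarith
  have hσs : |σ| ≤ 1 / 10 ^ 9 := by
    have t1 : (10 ^ 24 : ℝ) ≤ (N : ℝ) ^ 2 := by
      have := pow_le_pow_left₀ (by positivity) hNr 2
      linarith
    have t2 : |σ| * 10 ^ 24 ≤ |σ| * (N : ℝ) ^ 2 := mul_le_mul_of_nonneg_left t1 (abs_nonneg _)
    rw [le_div_iff₀ (by positivity)]
    have := abs_nonneg σ
    linarith
  have hσ0 := abs_nonneg σ
  have hσσ : |σ * σ| ≤ |σ| * (1 / 10 ^ 9) := by
    rw [abs_mul]; exact mul_le_mul_of_nonneg_left hσs hσ0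
  have hone : (1 : ℝ) ≤ |1 - -σ * σ| := by
    refine le_trans ?_ (le_abs_self _)
    have := mul_self_nonneg σ
    linarith
  have fin : ∀ D R : ℝ, D * (1 - -σ * σ) = R → |R| ≤ 4500 * |σ| → |D| ≤ 10 ^ 11 / (N : ℝ) ^ 2 := by
    intro D R h1 h2
    have t1 : |D| ≤ |R| := by
      rw [← h1, abs_mul]
      exact le_mul_of_one_le_right (abs_nonneg _) hone
    rw [le_div_iff₀ (by positivity)]
    have t2 : |D| * (N : ℝ) ^ 2 ≤ 4500 * |σ| * (N : ℝ) ^ 2 :=
      mul_le_mul_of_nonneg_right (t1.trans h2) (by positivity)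
    linarith
  have f0 := fin _ _ d0 (by
    have e : -((1000 + g) ^ 2 * σ + (1000 + h) ^ 2 * -σ -
        2 * (1000 + g) * (1000 + h) * (-σ * σ)) =
        -(((1000 + g) ^ 2 - (1000 + h) ^ 2) * σ + 2 * (1000 + g) * (1000 + h) * (σ * σ)) := by ring
    rw [e, abs_neg]
    refine (abs_add_le _ _).trans ?_
    rw [abs_mul, abs_mul (2 * (1000 + g) * (1000 + h))]
    have t1 : |(1000 + g) ^ 2 - (1000 + h) ^ 2| ≤ 4480 := by
      have t0 : (1000 + g) ^ 2 - (1000 + h) ^ 2 = (g - h) * 2001 := by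
        linear_combination (g - h) * e1
      rw [t0, abs_le]; constructor <;> linarith
    have t2 : |2 * (1000 + g) * (1000 + h)| ≤ 2003000 := by
      have t0 : 2 * (1000 + g) * (1000 + h) = 2001998 := by
        linear_combination 2000 * e1 + 2 * hgh
      rw [t0]; norm_num
    have t3 := mul_le_mul_of_nonneg_right t1 hσ0
    have t4 := mul_le_mul t2 hσσ (abs_nonneg _) (by norm_num)
    linarith)
  have f1 := fin _ _ d1 (by
    have e : 2 * (1000 + g) * σ + 2 * (1000 + h) * -σ - 2 * (2000 + g + h) * (-σ * σ) =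
        (2 * (g - h)) * σ + (2 * (2000 + g + h)) * (σ * σ) := by ring
    rw [e]
    refine (abs_add_le _ _).trans ?_
    rw [abs_mul, abs_mul (2 * (2000 + g + h))]
    have t1 : |2 * (g - h)| ≤ 5 := by
      rw [abs_le]; constructor <;> linarith
    have t2 : |2 * (2000 + g + h)| ≤ 5000 := by
      rw [abs_le]; constructor <;> linarith
    have t3 := mul_le_mul_of_nonneg_right t1 hσ0
    have t4 := mul_le_mul t2 hσσ (abs_nonneg _) (by norm_num)
    linarith)
  have f2 := fin _ _ d2 (by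
    have e : -(σ + -σ - 2 * (-σ * σ)) = -(2 * (σ * σ)) := by ring
    rw [e, abs_neg, abs_mul, abs_of_pos (by norm_num : (0 : ℝ) < 2)]
    have t5 : |σ| * (1 / 10 ^ 9) ≤ |σ| * 1 := mul_le_mul_of_nonneg_left (by norm_num) hσ0
    linarith)
  have hdiv : ‖mdForm va vb - mdForm (toR (mk a b)) (toR (mk c d))‖ ≤
      10 ^ 11 / (N : ℝ) ^ 2 / (g - h) := by
    rw [pi_norm_le_iff_of_nonneg (by positivity)]
    intro i
    rw [Real.norm_eq_abs, le_div_iff₀ hd]
    have conv : ∀ z : ℝ, |(g - h) * z| ≤ 10 ^ 11 / (N : ℝ) ^ 2 →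
        |z| * (g - h) ≤ 10 ^ 11 / (N : ℝ) ^ 2 := by
      intro z hz
      rw [abs_mul, abs_of_pos hd, mul_comm] at hz
      exact hz
    fin_cases i
    · exact conv _ f0
    · exact conv _ f1
    · exact conv _ f2
  rw [le_div_iff₀ hd, mul_comm] at hdiv
  exact hdiv


/-! ### The arrangement is algebraic -/

open Polynomial in
lemma algebraic : IsAlgebraicArr va vb := by
  have e1 := g_add_h
  have e2 := g_mul_h
  have hd := g_sub_h_pos
  refine ⟨?_, ?_⟩
  · rw [LinearIndependent.pair_iff]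
    intro s t hst
    have h0 := congrFun hst 0
    have h1 := congrFun hst 1
    simp [va, vb] at h0 h1
    have h2 : s * (g - h) = 0 := by
      linear_combination h1 - (1000 + h) * h0
    have hs : s = 0 := by
      rcases mul_eq_zero.1 h2 with h | h
      · exact h
      · exact absurd h hd.ne'
    refine ⟨hs, ?_⟩
    rw [hs] at h0
    linarith
  · let A : Matrix (Fin 2) (Fin 2) ℤ := !![-1000, 1; -1000999, 1001]
    have hdet : A.det = -1 := by simp [A, Matrix.det_fin_two]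
    have hunit : IsUnit A.det := by rw [hdet]; exact isUnit_one.neg
    refine ⟨Matrix.GeneralLinearGroup.mk'' A hunit, ?_, g, h, by linarith, ?_, ?_⟩
    · change Irreducible (A.charpoly.map (Int.castRingHom ℚ))
      have hcp : A.charpoly.map (Int.castRingHom ℚ) = X ^ 2 - X - 1 := by
        rw [Matrix.charpoly_fin_two, hdet]
        simp [A, Matrix.trace_fin_two]
        ring
      rw [hcp]
      have hdeg : (X ^ 2 - X - 1 : ℚ[X]).natDegree = 2 := by compute_degree!
      apply Polynomial.irreducible_of_degree_le_three_of_not_isRoot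
      · rw [hdeg]; simp
      · intro r hr
        simp [IsRoot] at hr
        have h5 : (2 * r - 1) ^ 2 = 5 := by linear_combination 4 * hr
        have hirr : Irrational (√5) := by
          have := Nat.Prime.irrational_sqrt (show Nat.Prime 5 by norm_num)
          exact_mod_cast this
        apply hirr
        refine ⟨|2 * r - 1|, ?_⟩
        have h6 : ((2 * r - 1 : ℚ) : ℝ) ^ 2 = 5 := by exact_mod_cast h5
        push_cast at h6 ⊢
        rw [← Real.sqrt_sq_eq_abs, h6]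
    · change (A.map (Int.cast : ℤ → ℝ)).mulVec va = g • va
      funext i
      fin_cases i
      · simp [A, va, Matrix.mulVec, dotProduct, Fin.sum_univ_two]
      · simp [A, va, Matrix.mulVec, dotProduct, Fin.sum_univ_two]
        linear_combination -g_sq
    · change (A.map (Int.cast : ℤ → ℝ)).mulVec vb = h • vb
      funext i
      fin_cases i
      · simp [A, vb, Matrix.mulVec, dotProduct, Fin.sum_univ_two]
      · simp [A, vb, Matrix.mulVec, dotProduct, Fin.sum_univ_two]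
        linear_combination -h_sq

/-! ### The theorem -/

lemma finite_intArr (N : ℕ) :
    {p : (Fin 2 → ℤ) × (Fin 2 → ℤ) | IsIntArr N p.1 p.2}.Finite := by
  have hfin : {v : Fin 2 → ℤ | ‖v‖ ≤ N}.Finite := by
    apply (Set.finite_Icc (fun _ => -(N : ℤ)) (fun _ => (N : ℤ))).subset
    intro v hv
    have hv' : ∀ i, |(v i : ℝ)| ≤ N := by
      intro i
      have := norm_le_pi_norm v i
      rw [Int.norm_eq_abs] at this
      exact this.trans hv
    constructor
    · intro i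
      have := (abs_le.1 (hv' i)).1
      exact_mod_cast this
    · intro i
      have := (abs_le.1 (hv' i)).2
      exact_mod_cast this
  apply (hfin.prod hfin).subset
  rintro ⟨v, w⟩ ⟨-, -, -, hN⟩
  exact ⟨(le_max_left _ _).trans hN, (le_max_right _ _).trans hN⟩

/-- There is an algebraic arrangement such that for every large `N` best approximations of size at
most `N` exist, and none of them has both of its primitive vectors on the geometric continued
fraction of the arrangement. -/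
theorem main : ∃ a b : Fin 2 → ℝ, IsAlgebraicArr a b ∧ ∃ N₀ : ℕ, ∀ N : ℕ, N₀ ≤ N →
    (∃ v w : Fin 2 → ℤ, IsBestApprox a b N v w) ∧
    ∀ v w : Fin 2 → ℤ, IsBestApprox a b N v w →
      ¬ (toR v ∈ geomContFrac a b ∧ toR w ∈ geomContFrac a b) := by
  refine ⟨va, vb, algebraic, 10 ^ 12, ?_⟩
  intro N hN
  obtain ⟨v₀, w₀, hint, hup⟩ := upper_pair N hN
  constructor
  · obtain ⟨⟨v, w⟩, hvw, hmin⟩ := Set.exists_min_image _
      (fun p : (Fin 2 → ℤ) × (Fin 2 → ℤ) => disc va vb (toR p.1) (toR p.2))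
      (finite_intArr N) ⟨(v₀, w₀), hint⟩
    exact ⟨v, w, hvw, fun v' w' h' => hmin (v', w') h'⟩
  · rintro v w ⟨⟨hcv, hcw, hD, hN'⟩, hmin⟩ ⟨hv, hw⟩
    have hvN : ‖v‖ ≤ N := (le_max_left _ _).trans hN'
    have hwN : ‖w‖ ≤ N := (le_max_right _ _).trans hN'
    obtain ⟨x, y, rfl⟩ := exists_mk v
    obtain ⟨x', y', rfl⟩ := exists_mk w
    have nz : ∀ x y : ℤ, IsCoprime (mk x y 0) (mk x y 1) → ¬ (x = 0 ∧ y = 0) := by
      rintro x y hc ⟨rfl, rfl⟩
      simp [mk] at hc
      exact not_isCoprime_zero_zero hc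
    obtain ⟨k, s, hs, hk2, hk1⟩ := classify x y (nz _ _ hcv) (norm_of_geomContFrac x y hv)
    obtain ⟨m, s', hs', hm2, hm1⟩ := classify x' y' (nz _ _ hcw) (norm_of_geomContFrac x' y' hw)
    have l1 := lower_pair N hN (mk x y) (mk x' y') hD hvN k m s s' hs hs'
      (by rw [L2_mk, hk2]) (by rw [L1_mk, hk1]) (by rw [L2_mk, hm2]) (by rw [L1_mk, hm1])
    have l2 := lower_pair N hN (mk x' y') (mk x y) (by
        intro h0; apply hD; linarith) hwN m k s' s hs' hs
      (by rw [L2_mk, hm2]) (by rw [L1_mk, hm1]) (by rw [L2_mk, hk2]) (by rw [L1_mk, hk1])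
    have hle := hmin v₀ w₀ hint
    rw [disc_eq, disc_eq] at hle
    have h1 : min ‖mdForm va vb - mdForm (toR w₀) (toR v₀)‖
        ‖mdForm va vb - mdForm (toR v₀) (toR w₀)‖ ≤
        ‖mdForm va vb - mdForm (toR v₀) (toR w₀)‖ := min_le_right _ _
    have hd := g_sub_h_pos
    rcases min_le_iff.1 (hle.trans h1) with h2 | h2
    · have := mul_le_mul_of_nonneg_left h2 hd.le
      linarith
    · have := mul_le_mul_of_nonneg_left h2 hd.le
      linarith

end Pool.Agent.H.MP_b5c594_nt
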